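import Mathlib
import Pool.Agent.Helper55.WH.Param

set_option autoImplicit false

open Filter Topology MeasureTheory AddCircle
open scoped InnerProductSpace ENNReal

namespace Pool.Agent.Results.MP_6bfd89_an.AdmissibleWH

/-- The circle, modelled as `ℝ / ℤ`; `x` stands for the point `toCircle x = exp (2 π i x)`. -/
abbrev Circ : Type := AddCircle (1 : ℝ)

/-- The complex Hilbert space `L²(𝕋)` for the normalised Haar (Lebesgue) measure. -/
def L2Circle : Type := Lp ℂ 2 (haarAddCircle : Measure Circ)

noncomputable instance : NormedAddCommGroup L2Circle :=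
  (inferInstance : NormedAddCommGroup (Lp ℂ 2 (haarAddCircle : Measure Circ)))

noncomputable instance : InnerProductSpace ℂ L2Circle :=
  (inferInstance : InnerProductSpace ℂ (Lp ℂ 2 (haarAddCircle : Measure Circ)))

/-- The function on the circle represented (almost everywhere) by an element of `L²(𝕋)`. -/
noncomputable def L2Circle.fn (f : L2Circle) : Circ → ℂ :=
  AEEqFun.cast (Subtype.val (p := fun g => g ∈ Lp ℂ 2 (haarAddCircle : Measure Circ)) f)

lemma hardy_add {f g : L2Circle} (hf : ∀ n : ℤ, n < 0 → fourierCoeff f.fn n = 0)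
    (hg : ∀ n : ℤ, n < 0 → fourierCoeff g.fn n = 0) :
    ∀ n : ℤ, n < 0 → fourierCoeff (f + g).fn n = 0 :=
  (Pool.Agent.Helper55.WH.Lge 0).add_mem hf hg

lemma hardy_zero : ∀ n : ℤ, n < 0 → fourierCoeff (0 : L2Circle).fn n = 0 :=
  (Pool.Agent.Helper55.WH.Lge 0).zero_mem

lemma hardy_smul (c : ℂ) {f : L2Circle} (hf : ∀ n : ℤ, n < 0 → fourierCoeff f.fn n = 0) :
    ∀ n : ℤ, n < 0 → fourierCoeff (c • f).fn n = 0 :=
  (Pool.Agent.Helper55.WH.Lge 0).smul_mem c hf

/-- The Hardy space `H²(𝔻)`, viewed as the closed subspace of `L²(𝕋)` of those functions whose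
Fourier coefficients of negative index vanish. -/
noncomputable def hardySpace : Submodule ℂ L2Circle where
  carrier := {f | ∀ n : ℤ, n < 0 → fourierCoeff f.fn n = 0}
  add_mem' := hardy_add
  zero_mem' := hardy_zero
  smul_mem' := fun c _ hf => hardy_smul c hf

/-- The Hardy space as a type. -/
def HardyH2 : Type := ↥hardySpace

noncomputable instance : NormedAddCommGroup HardyH2 :=
  (inferInstance : NormedAddCommGroup ↥hardySpace)

noncomputable instance : InnerProductSpace ℂ HardyH2 :=
  (inferInstance : InnerProductSpace ℂ ↥hardySpace)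

/-- Bounded linear operators on the Hardy space. -/
abbrev HardyOp : Type := HardyH2 →L[ℂ] HardyH2

/-- The boundary function on the circle of an element of the Hardy space. -/
noncomputable def HardyH2.fn (f : HardyH2) : Circ → ℂ :=
  L2Circle.fn (Subtype.val (p := fun g => g ∈ hardySpace) f)

/-- `g` belongs to `H^∞(𝔻)`: it is analytic and bounded in the open unit disc. -/
def MemHInf (g : ℂ → ℂ) : Prop :=
  DifferentiableOn ℂ g (Metric.ball 0 1) ∧ ∃ C : ℝ, ∀ z ∈ Metric.ball (0 : ℂ) 1, ‖g z‖ ≤ C

/-- `G` is the boundary function of `g` on the circle: radial limits almost everywhere. -/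
def IsBoundaryFunction (g : ℂ → ℂ) (G : Circ → ℂ) : Prop :=
  ∀ᵐ x ∂(haarAddCircle : Measure Circ),
    Tendsto (fun r : ℝ => g ((r : ℂ) * (toCircle x : ℂ))) (𝓝[<] 1) (𝓝 (G x))

/-- `g` (with boundary function `G`) is admissible: `g ∈ H^∞(𝔻)`, `g(𝔻) ∩ 𝔻 = ∅`, `|g| > 1` almost
everywhere on the circle and `log (|g| - 1)` is not integrable on the circle. -/
def Admissible (g : ℂ → ℂ) (G : Circ → ℂ) : Prop :=
  MemHInf g ∧ IsBoundaryFunction g G ∧
    (∀ z ∈ Metric.ball (0 : ℂ) 1, g z ∉ Metric.ball (0 : ℂ) 1) ∧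
    (∀ᵐ x ∂(haarAddCircle : Measure Circ), 1 < ‖G x‖) ∧
    ¬ Integrable (fun x => Real.log (‖G x‖ - 1)) (haarAddCircle : Measure Circ)

/-- `T` is the analytic Toeplitz operator on `H²` whose symbol has boundary function `G`:
`T f = G f` almost everywhere on the circle. -/
def IsAnalyticToeplitz (G : Circ → ℂ) (T : HardyOp) : Prop :=
  ∀ f : HardyH2, (T f).fn =ᵐ[haarAddCircle] fun x => G x * f.fn x

/-- `S` is the Hilbert space adjoint `T^*` of `T`. -/
def IsAdjoint (S T : HardyOp) : Prop :=
  ∀ f h : HardyH2, ⟪S f, h⟫_ℂ = ⟪f, T h⟫_ℂ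

/-- `T` is weakly hypercyclic: some orbit `{T^n x : n ≥ 0}` is dense in the weak topology. -/
def WeaklyHypercyclic {X : Type*} [NormedAddCommGroup X] [NormedSpace ℂ X] (T : X →L[ℂ] X) :
    Prop :=
  ∃ x : X, Dense (Set.range fun n : ℕ => toWeakSpace ℂ X ((T ^ n) x))

open Pool.Agent.Helper55.WH in
/-- There is an admissible symbol `g` whose coanalytic Toeplitz operator `T_g^*` is weakly
hypercyclic on `H²(𝔻)`. -/
theorem result : ∃ (g : ℂ → ℂ) (G : Circ → ℂ) (T S : HardyOp),
    Admissible g G ∧ IsAnalyticToeplitz G T ∧ IsAdjoint S T ∧ WeaklyHypercyclic S := by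
  obtain ⟨a, haD, haW⟩ := exists_par
  have hapos : ∀ k, 0 < a.1 k := fun k => (haD k).1
  set c := Gam a.1 with hc
  have hsum : Summable fun n => ‖c n‖ := summable_norm_l1 c
  -- the analytic logarithm
  let F : ℂ → ℂ := fun z => ∑' n : ℕ, c n * z ^ n
  have hFcont : ContinuousOn F (Metric.closedBall 0 1) := by
    refine continuousOn_tsum (u := fun n => ‖c n‖) (fun n => by fun_prop) hsum ?_
    intro n z hz
    rw [mem_closedBall_zero_iff] at hz
    rw [norm_mul, norm_pow]
    exact mul_le_of_le_one_right (norm_nonneg _) (pow_le_one₀ (norm_nonneg _) hz)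
  have hFdiff : DifferentiableOn ℂ F (Metric.ball 0 1) := by
    refine Complex.differentiableOn_tsum_of_summable_norm (u := fun n => ‖c n‖) hsum
      (fun n => by fun_prop) Metric.isOpen_ball ?_
    intro n z hz
    rw [mem_ball_zero_iff] at hz
    rw [norm_mul, norm_pow]
    exact mul_le_of_le_one_right (norm_nonneg _) (pow_le_one₀ (norm_nonneg _) hz.le)
  have hFb : ∀ x : AddCircle (1 : ℝ), F (toCircle x : ℂ) = bdry c x := by
    intro x
    refine (HasSum.tsum_eq ?_)
    refine (hasSum_bdry_apply c x).congr_fun fun n => ?_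
    have : (fourier (n : ℤ) x : ℂ) = (toCircle x : ℂ) ^ n := by
      rw [fourier_apply, natCast_zsmul, toCircle_nsmul, Circle.coe_pow]
    rw [this]
  let g : ℂ → ℂ := fun z => Complex.exp (F z)
  let G : Circ → ℂ := fun x => Complex.exp (bdry c x)
  have hGnorm : ∀ x, ‖G x‖ = Real.exp (bdry c x).re := fun x => Complex.norm_exp _
  -- the Toeplitz operator
  let T₀ : HH →L[ℂ] HH := NormedSpace.exp (toep c)
  let T : HardyH2 →L[ℂ] HardyH2 := T₀
  have hball : ∀ z ∈ Metric.ball (0 : ℂ) 1, 0 ≤ (F z).re := by
    intro z hz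
    have hdc : DiffContOnCl ℂ (fun z => Complex.exp (-F z)) (Metric.ball 0 1) := by
      refine ⟨hFdiff.neg.cexp, ?_⟩
      rw [closure_ball (0 : ℂ) one_ne_zero]
      exact (hFcont.neg).cexp
    have hfr : ∀ w ∈ frontier (Metric.ball (0 : ℂ) 1), ‖Complex.exp (-F w)‖ ≤ 1 := by
      intro w hw
      rw [frontier_ball (0 : ℂ) one_ne_zero, mem_sphere_zero_iff_norm] at hw
      obtain ⟨x, hx⟩ : ∃ x : AddCircle (1 : ℝ), (toCircle x : ℂ) = w := by
        obtain ⟨x, hx⟩ := (AddCircle.homeomorphCircle (T := (1 : ℝ)) one_ne_zero).surjective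
          ⟨w, mem_sphere_zero_iff_norm.2 hw⟩
        refine ⟨x, ?_⟩
        rw [AddCircle.homeomorphCircle_apply] at hx
        rw [hx]
      rw [← hx, hFb, Complex.norm_exp, Complex.neg_re]
      exact Real.exp_le_one_iff.2 (by linarith [re_nonneg a x])
    have h1 := Complex.norm_le_of_forall_mem_frontier_norm_le Metric.isBounded_ball hdc hfr
      (subset_closure hz)
    rw [Complex.norm_exp, Complex.neg_re, Real.exp_le_one_iff] at h1
    linarith
  have hne : ∀ᵐ x ∂(haarAddCircle : Measure Circ), x ≠ 0 := by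
    rw [ae_iff]
    simp only [not_not, Set.ofPred_eq_eq_singleton]
    have h1 : (haarAddCircle : Measure Circ) = volume := by
      rw [volume_eq_smul_haarAddCircle]; simp
    have h2 := AddCircle.volume_closedBall (T := (1 : ℝ)) (x := 0) (0 : ℝ)
    rw [Metric.closedBall_zero] at h2
    rw [h1, h2]
    simp
  let S₀ : HH →L[ℂ] HH := ContinuousLinearMap.adjoint T₀
  let S : HardyOp := S₀
  refine ⟨g, G, T, S, ⟨⟨hFdiff.cexp, Real.exp ‖c‖, ?_⟩, ?_, ?_, ?_, ?_⟩, ?_, ?_, ?_⟩
  · -- boundedness
    intro z hz
    rw [Complex.norm_exp]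
    refine Real.exp_le_exp.2 ((Complex.re_le_norm _).trans ?_)
    rw [norm_l1_eq]
    refine tsum_of_norm_bounded hsum.hasSum fun n => ?_
    rw [mem_ball_zero_iff] at hz
    rw [norm_mul, norm_pow]
    exact mul_le_of_le_one_right (norm_nonneg _) (pow_le_one₀ (norm_nonneg _) hz.le)
  · -- radial limits
    refine Eventually.of_forall fun x => ?_
    have hx1 : ‖(toCircle x : ℂ)‖ = 1 := Circle.norm_coe _
    have h1 : Tendsto (fun r : ℝ => (r : ℂ) * (toCircle x : ℂ)) (𝓝[<] 1)
        (𝓝[Metric.closedBall 0 1] (toCircle x : ℂ)) := by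
      rw [tendsto_nhdsWithin_iff]
      constructor
      · have : Tendsto (fun r : ℝ => (r : ℂ) * (toCircle x : ℂ)) (𝓝 1)
            (𝓝 (((1 : ℝ) : ℂ) * (toCircle x : ℂ))) :=
          (Complex.continuous_ofReal.mul continuous_const).tendsto 1
        rw [Complex.ofReal_one, one_mul] at this
        exact this.mono_left nhdsWithin_le_nhds
      · have h2 : ∀ᶠ r : ℝ in 𝓝[<] 1, 0 < r :=
          nhdsWithin_le_nhds (lt_mem_nhds one_pos)
        filter_upwards [self_mem_nhdsWithin, h2] with r hr hr0
        rw [mem_closedBall_zero_iff, norm_mul, hx1, mul_one, Complex.norm_real,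
          Real.norm_of_nonneg hr0.le]
        exact le_of_lt hr
    have h2 := (hFcont (toCircle x : ℂ) (by
      rw [mem_closedBall_zero_iff, hx1])).tendsto.comp h1
    have h3 := (Complex.continuous_exp.tendsto _).comp h2
    rw [hFb] at h3
    exact h3
  · -- `g` omits the disc
    intro z hz hgz
    rw [mem_ball_zero_iff] at hgz
    have h1 : ‖g z‖ = Real.exp (F z).re := Complex.norm_exp _
    rw [h1] at hgz
    have h2 := Real.one_le_exp (hball z hz)
    linarith
  · -- modulus larger than one
    filter_upwards [hne] with x hx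
    rw [hGnorm]
    exact Real.one_lt_exp_iff.2 (re_pos a hapos x hx)
  · -- non-integrability
    intro hint
    obtain ⟨m, hm⟩ := exists_nat_gt (∫ x, |Real.log (‖G x‖ - 1)|
      ∂(haarAddCircle : Measure Circ))
    obtain ⟨j, hj, htail⟩ := (haD m).2
    have hμ : (haarAddCircle : Measure Circ).real
        (Metric.closedBall 0 (rad j)) = 2 * rad j := by
      have h1 : (haarAddCircle : Measure Circ) = volume := by
        rw [volume_eq_smul_haarAddCircle]; simp
      rw [h1, Measure.real, AddCircle.volume_closedBall, min_eq_right]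
      · exact ENNReal.toReal_ofReal (by linarith [rad_pos j])
      · linarith [rad_le j]
    have hbound : ∀ᵐ x ∂(haarAddCircle : Measure Circ),
        (Metric.closedBall (0 : AddCircle (1 : ℝ)) (rad j)).indicator
          (fun _ => ((j : ℝ) + 1) / rad j) x ≤ |Real.log (‖G x‖ - 1)| := by
      filter_upwards [hne] with x hx
      by_cases hxj : x ∈ Metric.closedBall (0 : AddCircle (1 : ℝ)) (rad j)
      · rw [Set.indicator_of_mem hxj]
        rw [mem_closedBall_zero_iff] at hxj
        have h1 : (bdry c x).re < thr j := (re_le_tail a j x hxj).trans_lt htail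
        have h2 : 0 < (bdry c x).re := re_pos a hapos x hx
        have h3 : thr j ≤ 1 / 2 := by
          rw [thr]
          have : Real.exp (-(((j : ℝ) + 1) / rad j)) ≤ 1 := by
            rw [Real.exp_le_one_iff]
            have := rad_pos j
            have : 0 ≤ ((j : ℝ) + 1) / rad j := by positivity
            linarith
          linarith
        have h4 : ‖G x‖ - 1 ≤ Real.exp (-(((j : ℝ) + 1) / rad j)) := by
          rw [hGnorm]
          have h5 := Real.exp_bound_div_one_sub_of_interval h2.le (by linarith)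
          have h6 : 1 / (1 - (bdry c x).re) ≤ 1 + 2 * (bdry c x).re := by
            rw [div_le_iff₀ (by linarith)]
            nlinarith
          have h7 : 2 * (bdry c x).re ≤ Real.exp (-(((j : ℝ) + 1) / rad j)) := by
            rw [thr] at h1; linarith
          linarith
        have h5 : 0 < ‖G x‖ - 1 := by
          rw [hGnorm]
          have := Real.one_lt_exp_iff.2 h2
          linarith
        have h6 : Real.log (‖G x‖ - 1) ≤ -(((j : ℝ) + 1) / rad j) := by
          rw [← Real.log_exp (-(((j : ℝ) + 1) / rad j))]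
          exact Real.log_le_log h5 h4
        rw [le_abs]
        right
        linarith
      · rw [Set.indicator_of_notMem hxj]
        exact abs_nonneg _
    have hle := integral_mono_ae ((integrable_const _).indicator measurableSet_closedBall)
      hint.abs hbound
    rw [integral_indicator measurableSet_closedBall, setIntegral_const, hμ, smul_eq_mul] at hle
    have h1 : 2 * rad j * (((j : ℝ) + 1) / rad j) = 2 * ((j : ℝ) + 1) := by
      have := (rad_pos j).ne'
      field_simp
    rw [h1] at hle
    have h2 : (m : ℝ) ≤ j := by exact_mod_cast hj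
    linarith
  · -- the Toeplitz operator
    intro f
    have h1 := incl_exp_toep c f
    have h2 := mulL_coe (NormedSpace.exp (bdry c)) (incl f)
    rw [← h1] at h2
    refine h2.trans (Eventually.of_forall fun x => ?_)
    change (NormedSpace.exp (bdry c)) x * _ = G x * _
    rw [exp_apply_C]
    rfl
  · intro f h
    exact ContinuousLinearMap.adjoint_inner_left T₀ h f
  · exact haW

end Pool.Agent.Results.MP_6bfd89_an.AdmissibleWH
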